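import Mathlib

/-!
# MP_f8e877_nt : the conjunction (a), (b), (c), as posed, fails

Part (c), with the factor `B_k = binom(2k,k)^2` exactly as posed, already fails for `p = 11`.
-/

namespace Pool.Agent.Results.MP_f8e877_nt.PartCFails

open Finset

/-- `T_n(b,c) = ∑_j binom(n,2j) binom(2j,j) b^(n-2j) c^j`. -/
def T (n : ℕ) (b c : ℤ) : ℤ :=
  ∑ j ∈ range (n / 2 + 1), (n.choose (2 * j) : ℤ) * ((2 * j).choose j : ℤ) * b ^ (n - 2 * j) * c ^ j

/-- `A_k = binom(2k,k) binom(3k,k)`. -/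
def A (k : ℕ) : ℚ := ((2 * k).choose k : ℚ) * ((3 * k).choose k : ℚ)

/-- `B_k = binom(2k,k)^2`. -/
def B (k : ℕ) : ℚ := ((2 * k).choose k : ℚ) ^ 2

/-- `u_k = 512^(-k) T_k(18,1)`. -/
def u (k : ℕ) : ℚ := (T k 18 1 : ℚ) / 512 ^ k

/-- `v_k = (-512)^(-k) T_{3k}(6,1)`. -/
def v (k : ℕ) : ℚ := (T (3 * k) 6 1 : ℚ) / (-512) ^ k

/-- Congruence modulo `p^2` in the ring of rationals whose denominators are prime to `p`. -/
def CongSq (p : ℕ) (x y : ℚ) : Prop :=
  ∃ r : ℚ, Nat.Coprime r.den p ∧ x - y = (p : ℚ) ^ 2 * r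

/-- The sum `S`. -/
def S (p : ℕ) : ℚ := ∑ k ∈ range p, A k * u k

/-- The sum `S'`. -/
def S' (p : ℕ) : ℚ := ∑ k ∈ range p, A k * v k

/-- Part (a) for the prime `p`. -/
def PartA (p : ℕ) : Prop :=
  CongSq p (S p) ((jacobiSym 10 p : ℚ) * S' p) ∧
  (jacobiSym p 5 = 1 → jacobiSym p 7 = 1 → ∀ x y : ℤ, 4 * (p : ℤ) = x ^ 2 + 35 * y ^ 2 →
    CongSq p (S p) ((x : ℚ) ^ 2 - 2 * p)) ∧
  (jacobiSym p 5 = -1 → jacobiSym p 7 = -1 → ∀ x y : ℤ, 4 * (p : ℤ) = 5 * x ^ 2 + 7 * y ^ 2 →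
    CongSq p (S p) (2 * p - 5 * (x : ℚ) ^ 2)) ∧
  (jacobiSym p 35 = -1 → CongSq p (S p) 0)

/-- Part (b) for the prime `p`. -/
def PartB (p : ℕ) : Prop :=
  CongSq p (∑ k ∈ range p, (35 * (k : ℚ) + 9) * A k * u k)
    (9 / 2 * p * (7 - 5 * (jacobiSym p 5 : ℚ)))

/-- Part (c) for the prime `p`, with the factor `B_k`, as posed. -/
def PartC (p : ℕ) : Prop :=
  CongSq p (∑ k ∈ range p, (35 * (k : ℚ) + 9) * B k * v k)
    (9 / 32 * p * (jacobiSym 2 p : ℚ) * (25 + 7 * (jacobiSym p 7 : ℚ)))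

theorem sum_eq : (∑ k ∈ range 11, (35 * (k : ℚ) + 9) * B k * v k) =
    8136330251912589547878136534135183665 / 4835703278458516698824704 := by
  decide +kernel

theorem not_partC : ¬ PartC 11 := by
  rintro ⟨r, hr, h⟩
  have h2 : jacobiSym 2 (11 : ℕ) = -1 := by norm_num
  have h7 : jacobiSym ((11 : ℕ) : ℤ) 7 = 1 := by norm_num
  rw [h2, h7, sum_eq] at h
  have hd : (r.den : ℚ) ≠ 0 := by exact_mod_cast r.den_ne_zero
  have hrd : r = (r.num : ℚ) / (r.den : ℚ) := (Rat.num_div_den r).symm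
  rw [hrd] at h
  have h3 : (8136330251912589547878136534135183665 + 99 * 4835703278458516698824704 : ℚ) *
      (r.den : ℚ) = 121 * 4835703278458516698824704 * (r.num : ℚ) := by
    field_simp at h
    push_cast at h
    linarith
  have h4 : (8136330251912589547878136534135183665 + 99 * 4835703278458516698824704 : ℤ) *
      (r.den : ℤ) = 121 * 4835703278458516698824704 * r.num := by exact_mod_cast h3
  have h5 : (121 : ℤ) ∣ (8136330251912589547878136534135183665 + 99 * 4835703278458516698824704) *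
      (r.den : ℤ) := ⟨4835703278458516698824704 * r.num, by rw [h4]; ring⟩
  have h6 : IsCoprime (121 : ℤ) (r.den : ℤ) := by
    have : Nat.Coprime (11 ^ 2) r.den := Nat.Coprime.pow_left 2 hr.symm
    have h := Nat.isCoprime_iff_coprime.mpr this
    simpa using h
  have h8 := h6.dvd_of_dvd_mul_right h5
  norm_num at h8

/-- Q1 of the problem, exactly as posed (with the factor `B_k` in (c)), fails: (c) fails at
`p = 11`. -/
theorem result :
    (Nat.Prime 11 ∧ 7 < 11 ∧ ¬ PartC 11) ∧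
    ¬ ∀ p : ℕ, p.Prime → 7 < p → PartA p ∧ PartB p ∧ PartC p :=
  ⟨⟨by norm_num, by norm_num, not_partC⟩,
    fun h => not_partC (h 11 (by norm_num) (by norm_num)).2.2⟩

end Pool.Agent.Results.MP_f8e877_nt.PartCFails
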